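import Mathlib

set_option autoImplicit false
open Finset

namespace Pool.Agent.Results.MP_522cd8_co.Widths

def IsGBH {R : Type} [Ring R] (N : Subgroup Rˣ) {v : ℕ} (M : Fin v → Fin v → Rˣ) : Prop :=
  2 ≤ v ∧ ¬ ringChar R ∣ v ∧ (∀ i j, M i j ∈ N) ∧
    (∀ i k, ∑ j, ((M i j * (M k j)⁻¹ : Rˣ) : R) = if i = k then (v : R) else 0) ∧
    ∀ j l, ∑ i, (((M i j)⁻¹ * M i l : Rˣ) : R) = if j = l then (v : R) else 0

def Normal {R : Type} [Ring R] {v : ℕ} (M : Fin v → Fin v → Rˣ) : Prop :=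
  ∀ i j, i.1 = 0 ∨ j.1 = 0 → M i j = 1

def Wide {R : Type} [Ring R] {v : ℕ} (M : Fin v → Fin v → Rˣ) (m : ℕ) : Prop :=
  ∃ σ τ : Equiv.Perm (Fin v), Normal (fun i j => M (σ i) (τ j)) ∧ ∀ i j : Fin v,
    i.1 < m ∨ v ≤ i.1 + m ∨ j.1 < m ∨ v ≤ j.1 + m → M (σ i) (τ j) = 1 ∨ M (σ i) (τ j) = -1

def IsJacket {R : Type} [Ring R] (N : Subgroup Rˣ) {v : ℕ} (M : Fin v → Fin v → Rˣ) : Prop :=
  IsGBH N M ∧ Normal M ∧ Wide M 1

def Primary {R : Type} [Ring R] (N : Subgroup Rˣ) {v : ℕ} (M : Fin v → Fin v → Rˣ) : Prop :=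
  ¬ ∃ (a b : ℕ) (K : Fin a → Fin a → Rˣ) (L : Fin b → Fin b → Rˣ) (e f : Fin v ≃ Fin a × Fin b),
    IsJacket N K ∧ IsJacket N L ∧ ∀ i j, M i j = K (e i).1 (f j).1 * L (e i).2 (f j).2

private abbrev Q : Type := ZMod 3 × ZMod 3

private theorem iv (u : Qˣ) : ((u⁻¹ : Qˣ) : Q) = u :=
  (show ∀ x y : Q, x * y = 1 → y = x by decide) _ _ u.mul_inv

private theorem no {n : ℕ} (h1 : n % 2 = 1) (h2 : n % 3 = 2) (K : Fin n → Fin n → Qˣ) :
    ¬ IsGBH ⊤ K := by
  rintro ⟨-, -, -, h, -⟩
  have e : (Matrix.of fun i j => (K i j : Q).1) * (Matrix.of fun i j => (K i j : Q).1).transpose =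
      -1 := by
    ext i k
    have := congrArg Prod.fst (h i k)
    simp only [Units.val_mul, iv, Prod.fst_sum, Prod.fst_mul] at this
    rw [Matrix.mul_apply]
    refine this.trans ?_
    rw [Matrix.neg_apply, Matrix.one_apply]
    split_ifs
    · rw [Prod.fst_natCast, ← ZMod.natCast_mod, h2]; rfl
    · simp
  have := congrArg Matrix.det e
  rw [Matrix.det_mul, Matrix.det_transpose, Matrix.det_neg, Fintype.card_fin,
    (Nat.odd_iff.2 h1).neg_one_pow, Matrix.det_one] at this
  exact (show ∀ x : ZMod 3, x * x ≠ -1 * 1 by decide) _ this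

private def A {v : ℕ} (i j : Fin v) : ZMod 3 := if i.1 = 0 ∨ j.1 = 0 ∨ i = j then 1 else -1

private theorem A2 {v : ℕ} (i j : Fin v) : A i j * A i j = 1 := by unfold A; split_ifs <;> rfl

private theorem As {v : ℕ} (i j : Fin v) : A i j = A j i := by
  unfold A; exact if_congr (by tauto) rfl rfl

private theorem AA {v : ℕ} (h : v % 3 = 1) (i k : Fin v) :
    ∑ j, A i j * A k j = if i = k then (v : ZMod 3) else 0 := by
  have hv : (v : ZMod 3) = 1 := by rw [← ZMod.natCast_mod, h]; rfl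
  split_ifs with e
  · simp [e, A2]
  have : ∀ j, A i j * A k j = (if i.1 = 0 then 1 else -1) * (if k.1 = 0 then 1 else -1) *
      (1 + (if i = j then 1 else 0) + if k = j then 1 else 0) := fun j => by
    unfold A
    simp only [Fin.ext_iff] at *
    split_ifs <;> first | rfl | omega
  simp only [this, ← mul_sum, sum_add_distrib, sum_ite_eq, mem_univ, if_true, sum_const, card_univ,
    Fintype.card_fin, nsmul_eq_mul, hv]
  exact mul_eq_zero_of_right _ rfl

theorem result : ∃ (R : Type) (_ : Ring R) (N : Subgroup Rˣ),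
    {n : ℕ | ∀ w, 1 ≤ w → (if Even n then w ≤ n else w ≤ n - 1) →
      ∃ M : Fin (2 * n) → Fin (2 * n) → Rˣ, IsJacket N M ∧ Primary N M ∧
        IsGreatest {m | 1 ≤ m ∧ m ≤ n ∧ Wide M m} w}.Infinite := by
  refine ⟨Q, inferInstance, ⊤, Set.infinite_of_forall_exists_gt fun k => ?_⟩
  obtain ⟨n, n1, n2, n3⟩ := Nat.forall_exists_prime_gt_and_modEq k (q := 6) (a := 5) (by norm_num)
    (by norm_num)
  unfold Nat.ModEq at n3
  refine ⟨n, fun w w1 w2 => ?_, n1⟩
  rw [if_neg (by rw [Nat.even_iff]; omega)] at w2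
  let p : Fin (2 * n) → Fin (2 * n) := fun i => if w ≤ i.1 ∧ i.1 + w < 2 * n then i.rev else i
  have pv : ∀ i, (p i).1 = if w ≤ i.1 ∧ i.1 + w < 2 * n then 2 * n - (i.1 + 1) else i.1 := fun i => by
    simp only [p]; split_ifs <;> simp
  have pp : Function.Involutive p := fun i => Fin.ext (by
    have := i.2
    rw [pv, pv]; split_ifs <;> omega)
  let M : Fin (2 * n) → Fin (2 * n) → Qˣ := fun i j =>
    ⟨(A i j, A i (p j)), (A i j, A i (p j)), Prod.ext (A2 _ _) (A2 _ _), Prod.ext (A2 _ _) (A2 _ _)⟩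
  have Mv : ∀ i j, (M i j : Q) = (A i j, A i (p j)) := fun _ _ => rfl
  have Nm : Normal M := fun i j h => Units.ext (by
    have := pv j
    rw [Mv, A, A, if_pos (by tauto), if_pos (by split_ifs at this <;> omega)]; rfl)
  have W : ∀ m ≤ w, Wide M m := fun m hm => ⟨1, 1, Nm, fun i j h => by
    have := pv j
    have := i.2
    have := j.2
    have e : A i (p j) = A i j := if_congr (by
      simp only [Fin.ext_iff]; split_ifs at * <;> omega) rfl rfl
    simp only [Units.ext_iff, Equiv.Perm.one_apply, Mv, e]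
    unfold A
    split_ifs
    exacts [.inl rfl, .inr rfl]⟩
  refine ⟨M, ⟨⟨by omega, ?_, fun _ _ => trivial, fun i k => ?_, fun j l => ?_⟩, Nm, W 1 w1⟩, ?_,
    ⟨w1, by omega, W w le_rfl⟩, ?_⟩
  · rw [ringChar.eq Q 3]; omega
  · simp only [Units.val_mul, iv, Mv]
    refine Prod.ext ?_ ?_
    · simp only [Prod.fst_sum, Prod.fst_mul, AA (show 2 * n % 3 = 1 by omega)]
      split_ifs <;> rfl
    · simp only [Prod.snd_sum, Prod.snd_mul]
      rw [pp.bijective.sum_comp fun j => A i j * A k j, AA (show 2 * n % 3 = 1 by omega)]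
      split_ifs <;> rfl
  · simp only [Units.val_mul, iv, Mv]
    refine Prod.ext ?_ ?_
    · simp only [Prod.fst_sum, Prod.fst_mul, As _ j, As _ l, AA (show 2 * n % 3 = 1 by omega)]
      split_ifs <;> rfl
    · simp only [Prod.snd_sum, Prod.snd_mul, As _ (p j), As _ (p l),
        AA (show 2 * n % 3 = 1 by omega), pp.injective.eq_iff]
      split_ifs <;> rfl
  · rintro ⟨a, b, K, L, e, -, hK, hL, -⟩
    have c := Fintype.card_congr e
    simp only [Fintype.card_fin, Fintype.card_prod] at c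
    have a2 := hK.1.1
    have b2 := hL.1.1
    rcases (Nat.Prime.dvd_mul n2).1 ⟨2, by rw [← c, mul_comm]⟩ with ⟨d, rfl⟩ | ⟨d, rfl⟩
    · have : 2 = d * b := Nat.eq_of_mul_eq_mul_left n2.pos (by linarith)
      obtain rfl : d = 1 := by nlinarith [Nat.pos_of_ne_zero (show d ≠ 0 by rintro rfl; omega)]
      exact no (by omega) (by omega) K hK.1
    · have : 2 = d * a := Nat.eq_of_mul_eq_mul_left n2.pos (by linarith)
      obtain rfl : d = 1 := by nlinarith [Nat.pos_of_ne_zero (show d ≠ 0 by rintro rfl; omega)]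
      exact no (by omega) (by omega) L hL.1
  · rintro m ⟨-, m2, σ, τ, -, h⟩
    have c : ∀ m ≤ n, #(univ.filter fun i : Fin (2 * n) => i.1 < m ∨ 2 * n ≤ i.1 + m) = 2 * m := by
      intro m hm
      rw [← card_map Fin.valEmbedding, show map Fin.valEmbedding (univ.filter fun i : Fin (2 * n) =>
        i.1 < m ∨ 2 * n ≤ i.1 + m) = range m ∪ Ico (2 * n - m) (2 * n) by
          ext x
          simp only [mem_map, mem_filter_univ, Fin.valEmbedding_apply, mem_union, mem_range, mem_Ico]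
          exact ⟨fun ⟨i, a, b⟩ => by have := i.2; omega, fun a => ⟨⟨x, by omega⟩, by simp; omega, rfl⟩⟩,
        card_union_of_disjoint (by simp [disjoint_left]; omega)]
      simp; omega
    have := card_le_card_of_injOn (s := univ.filter fun i : Fin (2 * n) => i.1 < m ∨ 2 * n ≤ i.1 + m)
      (t := univ.filter fun i : Fin (2 * n) => i.1 < w ∨ 2 * n ≤ i.1 + w) σ (fun i hi => by
        have k := h i (τ.symm (σ i)) (by have := (mem_filter.1 hi).2; omega)
        have := pv (σ i)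
        have := (σ i).2
        simp only [coe_filter, mem_univ, true_and, Set.mem_ofPred_eq]
        by_contra q
        rw [τ.apply_symm_apply, Units.ext_iff, Units.ext_iff, Mv, A, A, if_pos (by simp),
          if_neg (by simp only [Fin.ext_iff]; split_ifs at * <;> omega)] at k
        exact absurd k (by decide)) σ.injective.injOn
    rw [c m m2, c w (by omega)] at this
    omega

end Pool.Agent.Results.MP_522cd8_co.Widths
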